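import Mathlib
import Pool.Agent.H280R3.W.Reg

/-! The Galerkin system of the Navier–Stokes equations on an open set with Dirichlet conditions,
and its relation with the system on the whole space. -/

set_option autoImplicit false

open Set MeasureTheory Filter Topology Finset
open scoped RealInnerProductSpace ContDiff

namespace Pool.Agent.H280R3.D6

open Pool.Agent.H280R3.W

/-- `∫_Ω u · v` -/
noncomputable def mass (Ω : Set V) (u v : V → V) : ℝ := ∫ x in Ω, ⟪u x, v x⟫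

/-- `∫_Ω u · (Dv) u`, which is minus the integral of `((u · ∇) u) · v` for divergence-free `u` -/
noncomputable def adv (Ω : Set V) (u v : V → V) : ℝ := ∫ x in Ω, ⟪u x, fderiv ℝ v x (u x)⟫

/-- `∫_Ω ∇u : ∇v` -/
noncomputable def diss (Ω : Set V) (u v : V → V) : ℝ :=
  ∫ x in Ω, ∑ i, ⟪fderiv ℝ u x (ev i), fderiv ℝ v x (ev i)⟫

/-- `v` is a limit in `L²(Ω)` of finite linear combinations of the `Φ k` -/
def InCl (Ω : Set V) (Φ : ℕ → V → V) (v : V → V) : Prop :=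
  ∀ η > 0, ∃ w ∈ Submodule.span ℝ (range Φ),
    IntegrableOn (fun x => ‖v x - w x‖ ^ 2) Ω ∧ ∫ x in Ω, ‖v x - w x‖ ^ 2 ≤ η

/-- Solutions on `[0, T]` of the Navier–Stokes equations on the open set `Ω` with viscosity `ν`,
without force, projected to the closed span of the fields `Φ 0, Φ 1, …` (compactly supported in
`Ω`) in `L²(Ω)`, bounded in the critical space `L³(Ω)`. -/
structure DSol (Ω : Set V) (ν : ℝ) (Φ : ℕ → V → V) (u0 : V → V) (T : ℝ) (u : ℝ → V → V) :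
    Prop where
  init : ∀ x ∈ Ω, u 0 x = u0 x
  cd : ∀ t ∈ Icc 0 T, ContDiffOn ℝ 1 (u t) Ω
  dv : ∀ t ∈ Icc 0 T, ∀ x ∈ Ω, divg (u t) x = 0
  cl : ∀ t ∈ Icc 0 T, InCl Ω Φ (u t)
  bdd : ∃ C, ∀ t ∈ Icc 0 T, ∫ x in Ω, ‖u t x‖ ^ 3 ≤ C
  eq : ∀ k, ∀ t ∈ Icc 0 T, HasDerivWithinAt (fun s => mass Ω (u s) (Φ k))
    (adv Ω (u t) (Φ k) - ν * diss Ω (u t) (Φ k)) (Icc 0 T) t

section

variable {Φ : ℕ → V → V} {u0 : V → V} {T ν : ℝ} {u : ℝ → V → V} {Ω K : Set V}

lemma span_off (hΦ : ∀ k, ∀ x ∉ K, Φ k x = 0) {w : V → V}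
    (hw : w ∈ Submodule.span ℝ (range Φ)) {x : V} (hx : x ∉ K) : w x = 0 := by
  induction hw using Submodule.span_induction with
  | mem a h => obtain ⟨k, rfl⟩ := h; exact hΦ k x hx
  | zero => rfl
  | add a b _ _ ha hb => simp [ha, hb]
  | smul c a _ ha => simp [ha]

/-- limits of combinations of fields vanishing off `K` vanish off `K` -/
lemma cl_zero (hΩ : IsOpen Ω) (hK : IsClosed K) (hΦ : ∀ k, ∀ x ∉ K, Φ k x = 0) {v : V → V}
    (hcont : ContinuousOn v Ω) (hcl : InCl Ω Φ v) {x : V} (hx : x ∈ Ω) (hxK : x ∉ K) : v x = 0 := by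
  set A : Set V := Ω ∩ Kᶜ with hA
  have hAo : IsOpen A := hΩ.inter hK.isOpen_compl
  have hAm : MeasurableSet A := hAo.measurableSet
  have hAc : A ⊆ Ω := fun y hy => hy.1
  have hle : ∀ η > 0, IntegrableOn (fun y => ‖v y‖ ^ 2) A ∧ ∫ y in A, ‖v y‖ ^ 2 ≤ η := by
    intro η hη
    obtain ⟨w, hw, hi, hle⟩ := hcl η hη
    have e0 : ∀ y ∈ A, ‖v y - w y‖ ^ 2 = ‖v y‖ ^ 2 := by
      intro y hy
      rw [span_off hΦ hw hy.2]
      simp
    refine ⟨(hi.mono_set hAc).congr_fun e0 hAm, le_trans ?_ hle⟩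
    rw [← setIntegral_congr_fun hAm e0]
    exact setIntegral_mono_set hi (Eventually.of_forall fun y => sq_nonneg _)
      (Eventually.of_forall hAc)
  have h0 : ∫ y in A, ‖v y‖ ^ 2 = 0 :=
    le_antisymm (le_of_forall_pos_le_add fun η hη => by simpa using (hle η hη).2)
      (setIntegral_nonneg hAm fun y _ => sq_nonneg _)
  by_contra hne
  have hpos : 0 < ∫ y in A, ‖v y‖ ^ 2 := by
    rw [setIntegral_pos_iff_support_of_nonneg_ae (Eventually.of_forall fun y => sq_nonneg _)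
      (hle 1 one_pos).1]
    have ho : IsOpen (A ∩ v ⁻¹' {0}ᶜ) :=
      (hcont.mono hAc).isOpen_inter_preimage hAo isOpen_compl_singleton
    have hsub : A ∩ v ⁻¹' {0}ᶜ ⊆ (Function.support fun y => ‖v y‖ ^ 2) ∩ A := by
      rintro y ⟨h1, h2⟩
      refine ⟨?_, h1⟩
      simp only [Function.mem_support]
      have : 0 < ‖v y‖ := norm_pos_iff.2 h2
      positivity
    exact lt_of_lt_of_le (ho.measure_pos volume ⟨x, ⟨hx, hxK⟩, hne⟩) (measure_mono hsub)
  linarith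

lemma int_dom (hΩ : IsOpen Ω) (hKΩ : K ⊆ Ω) {F G : V → ℝ}
    (h1 : ∀ x ∉ K, G x = 0) (h2 : ∀ x ∈ Ω, F x = G x) :
    ∫ x in Ω, F x = ∫ x, G x := by
  rw [setIntegral_congr_fun hΩ.measurableSet h2]
  refine setIntegral_eq_integral_of_forall_compl_eq_zero fun x hx => h1 x ?_
  exact fun h => hx (hKΩ h)

lemma fderiv_off (hK : IsClosed K) {f : V → V} (h : ∀ x ∉ K, f x = 0) {x : V} (hx : x ∉ K) :
    fderiv ℝ f x = 0 := by
  have h1 : f =ᶠ[𝓝 x] fun _ => 0 := by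
    filter_upwards [hK.isOpen_compl.mem_nhds hx] with y hy
    exact h y hy
  rw [h1.fderiv_eq]
  simp

/-- From a solution on `Ω` to a solution on `ℝ³`, by extension by zero. -/
theorem dom_to_space (hΩ : IsOpen Ω) (hK : IsCompact K) (hKΩ : K ⊆ Ω)
    (hΦ : ∀ k, ∀ x ∉ K, Φ k x = 0) (hu0 : ∀ x ∉ K, u0 x = 0) (hT : 0 ≤ T)
    (h : DSol Ω ν Φ u0 T u) : CSol ν Φ u0 T (fun t => Ω.indicator (u t)) := by
  have hKc := hK.isClosed
  have hz : ∀ t ∈ Icc 0 T, ∀ x ∈ Ω, x ∉ K → u t x = 0 := fun t ht x hx h3 =>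
    cl_zero hΩ hKc hΦ (h.cd t ht).continuousOn (h.cl t ht) hx h3
  have hoff : ∀ t ∈ Icc 0 T, ∀ x ∉ K, Ω.indicator (u t) x = 0 := by
    intro t ht x hx
    by_cases h1 : x ∈ Ω
    · rw [Set.indicator_of_mem h1, hz t ht x h1 hx]
    · rw [Set.indicator_of_notMem h1]
  have hnear : ∀ t, ∀ x ∈ Ω, Ω.indicator (u t) =ᶠ[𝓝 x] u t := by
    intro t x hx
    filter_upwards [hΩ.mem_nhds hx] with y hy
    exact Set.indicator_of_mem hy _
  have hfar : ∀ t ∈ Icc 0 T, ∀ x ∉ K, Ω.indicator (u t) =ᶠ[𝓝 x] fun _ => 0 := by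
    intro t ht x hx
    filter_upwards [hKc.isOpen_compl.mem_nhds hx] with y hy
    exact hoff t ht y hy
  obtain ⟨C, hC⟩ := h.bdd
  have hfd : ∀ t, ∀ x ∈ Ω, fderiv ℝ (Ω.indicator (u t)) x = fderiv ℝ (u t) x :=
    fun t x hx => (hnear t x hx).fderiv_eq
  refine ⟨?_, ?_, ?_, ?_⟩
  · show Ω.indicator (u 0) = u0
    funext x
    by_cases hx : x ∈ Ω
    · rw [Set.indicator_of_mem hx, h.init x hx]
    · rw [Set.indicator_of_notMem hx, hu0 x fun h1 => hx (hKΩ h1)]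
  · intro t ht
    refine ⟨⟨?_, ?_, ?_⟩, ?_⟩
    · rw [contDiff_iff_contDiffAt]
      intro x
      by_cases hx : x ∈ K
      · exact ((h.cd t ht).contDiffAt (hΩ.mem_nhds (hKΩ hx))).congr_of_eventuallyEq
          (hnear t x (hKΩ hx))
      · exact contDiffAt_const.congr_of_eventuallyEq (hfar t ht x hx)
    · exact HasCompactSupport.intro hK fun x hx => hoff t ht x hx
    · intro x
      unfold divg
      by_cases hx : x ∈ K
      · rw [hfd t x (hKΩ hx)]
        exact h.dv t ht x (hKΩ hx)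
      · rw [fderiv_off hKc (hoff t ht) hx]
        simp
    · intro η hη
      obtain ⟨w, hw, hi, hle⟩ := h.cl t ht η hη
      refine ⟨w, hw, le_trans (le_of_eq ?_) hle⟩
      symm
      refine int_dom hΩ hKΩ (fun x hx => by
        have h1 := hoff t ht x hx
        have h2 := span_off hΦ hw hx
        show ‖Ω.indicator (u t) x - w x‖ ^ 2 = 0
        rw [h1, h2]; simp) fun x hx => ?_
      show ‖u t x - w x‖ ^ 2 = ‖Ω.indicator (u t) x - w x‖ ^ 2
      rw [Set.indicator_of_mem hx]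
  · refine ⟨C, fun t ht => le_trans (le_of_eq ?_) (hC t ht)⟩
    symm
    refine int_dom hΩ hKΩ (fun x hx => ?_) fun x hx => ?_
    · show ‖Ω.indicator (u t) x‖ ^ 3 = 0
      rw [hoff t ht x hx]; simp
    · show ‖u t x‖ ^ 3 = ‖Ω.indicator (u t) x‖ ^ 3
      rw [Set.indicator_of_mem hx]
  · intro k t ht
    have h1 := h.eq k t ht
    have e1 : ∀ s ∈ Icc 0 T, mass Ω (u s) (Φ k) = ip (Ω.indicator (u s)) (Φ k) := by
      intro s hs
      refine int_dom hΩ hKΩ (fun x hx => by simp [hΦ k x hx]) fun x hx => ?_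
      rw [Set.indicator_of_mem hx]
    have e2 : adv Ω (u t) (Φ k) = tri (Ω.indicator (u t)) (Φ k) (Ω.indicator (u t)) := by
      refine int_dom hΩ hKΩ (fun x hx => by rw [fderiv_off hKc (hΦ k) hx]; simp) fun x hx => ?_
      rw [Set.indicator_of_mem hx]
    have e3 : diss Ω (u t) (Φ k) = dir (Ω.indicator (u t)) (Φ k) := by
      refine int_dom hΩ hKΩ (fun x hx => by rw [fderiv_off hKc (hΦ k) hx]; simp) fun x hx => ?_
      rw [hfd t x hx]
    rw [e2, e3] at h1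
    exact h1.congr (fun s hs => (e1 s hs).symm) (e1 t ht).symm

/-- fields of the closed span vanish off `K` -/
lemma inX_off (hK : IsClosed K) (hΦT : ∀ k, TF (Φ k)) (hΦ : ∀ k, ∀ x ∉ K, Φ k x = 0) {v : V → V}
    (hv : InX Φ v) {x : V} (hx : x ∉ K) : v x = 0 := by
  refine cl_zero (Ω := univ) isOpen_univ hK hΦ hv.1.cont.continuousOn ?_ (mem_univ x) hx
  intro η hη
  obtain ⟨w, hw, hle⟩ := hv.2 η hη
  have hwT : TF w := by
    clear hle
    induction hw using Submodule.span_induction with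
    | mem a h => obtain ⟨k, rfl⟩ := h; exact hΦT k
    | zero =>
      refine ⟨contDiff_const, HasCompactSupport.zero, fun x => ?_⟩
      unfold divg
      have : fderiv ℝ (0 : V → V) x = 0 := by
        show fderiv ℝ (fun _ : V => (0 : V)) x = 0
        simp
      rw [this]; simp
    | add a b _ _ ha hb => exact ha.add hb
    | smul c a _ ha => exact ha.smul c
  have hd := hv.1.sub hwT
  refine ⟨w, hw, ?_, ?_⟩
  · rw [integrableOn_univ]
    obtain ⟨R, hR⟩ := hd.out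
    have hc := hd.cont
    refine integrable_of_zero (F := fun x => ‖(v - w) x‖ ^ 2) (by fun_prop) (R := R)
      fun x hx => ?_
    rw [(hR x hx).1]; simp
  · rw [setIntegral_univ]
    exact hle

lemma int_sq {v w : V → V} (hd : TF (v - w)) : Integrable fun x => ‖v x - w x‖ ^ 2 := by
  obtain ⟨R, hR⟩ := hd.out
  have hc := hd.cont
  refine integrable_of_zero (F := fun x => ‖(v - w) x‖ ^ 2) (by fun_prop) (R := R)
    fun x hx => ?_
  rw [(hR x hx).1]; simp

lemma span_TF (hΦT : ∀ k, TF (Φ k)) {w : V → V} (hw : w ∈ Submodule.span ℝ (range Φ)) : TF w := by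
  induction hw using Submodule.span_induction with
  | mem a h => obtain ⟨k, rfl⟩ := h; exact hΦT k
  | zero =>
    refine ⟨contDiff_const, HasCompactSupport.zero, fun x => ?_⟩
    unfold divg
    have : fderiv ℝ (0 : V → V) x = 0 := by
      show fderiv ℝ (fun _ : V => (0 : V)) x = 0
      simp
    rw [this]; simp
  | add a b _ _ ha hb => exact ha.add hb
  | smul c a _ ha => exact ha.smul c

lemma diss_eq (hΩ : IsOpen Ω) (hK : IsClosed K) (hKΩ : K ⊆ Ω) {f g : V → V}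
    (hf : ∀ x ∉ K, f x = 0) : diss Ω f g = dir f g :=
  int_dom hΩ hKΩ (fun x hx => by rw [fderiv_off hK hf hx]; simp) fun x _ => rfl

lemma mass_eq (hΩ : IsOpen Ω) (hKΩ : K ⊆ Ω) {f g : V → V}
    (hf : ∀ x ∉ K, f x = 0) : mass Ω f g = ip f g :=
  int_dom hΩ hKΩ (fun x hx => by rw [hf x hx]; simp) fun x _ => rfl

/-- From a solution on `ℝ³` to a solution on `Ω`. -/
theorem space_to_dom (hΩ : IsOpen Ω) (hK : IsCompact K) (hKΩ : K ⊆ Ω) (hΦT : ∀ k, TF (Φ k))
    (hΦ : ∀ k, ∀ x ∉ K, Φ k x = 0) (h : CSol ν Φ u0 T u) : DSol Ω ν Φ u0 T u := by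
  have hKc := hK.isClosed
  have hoff : ∀ t ∈ Icc 0 T, ∀ x ∉ K, u t x = 0 := fun t ht x hx =>
    inX_off hKc hΦT hΦ (h.mem t ht) hx
  refine ⟨fun x _ => by rw [h.init], fun t ht => (h.mem t ht).1.cd.contDiffOn,
    fun t ht x _ => (h.mem t ht).1.dv x, fun t ht η hη => ?_, ?_, fun k t ht => ?_⟩
  · obtain ⟨w, hw, hle⟩ := (h.mem t ht).2 η hη
    have hi := int_sq ((h.mem t ht).1.sub (span_TF hΦT hw))
    exact ⟨w, hw, hi.integrableOn, (setIntegral_le_integral hi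
      (Eventually.of_forall fun x => sq_nonneg _)).trans hle⟩
  · obtain ⟨C, hC⟩ := h.bdd
    refine ⟨C, fun t ht => le_trans (le_of_eq ?_) (hC t ht)⟩
    exact int_dom hΩ hKΩ (fun x hx => by rw [hoff t ht x hx]; simp) fun x _ => rfl
  · have h1 := h.eq k t ht
    have e1 : ∀ s ∈ Icc 0 T, mass Ω (u s) (Φ k) = ip (u s) (Φ k) := fun s hs =>
      mass_eq hΩ hKΩ (hoff s hs)
    have e2 : adv Ω (u t) (Φ k) = tri (u t) (Φ k) (u t) :=
      int_dom hΩ hKΩ (fun x hx => by rw [fderiv_off hKc (hΦ k) hx]; simp) fun x _ => rfl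
    have e3 : diss Ω (u t) (Φ k) = dir (u t) (Φ k) := diss_eq hΩ hKc hKΩ (hoff t ht)
    rw [e2, e3]
    exact h1.congr e1 (e1 t ht)

end

end Pool.Agent.H280R3.D6
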