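import Mathlib
import Pool.Agent.H280R3.W.Extra
import Pool.Agent.H280R3.D6.Ser

/-! More ways of blowing up: the enstrophy, the velocity, the modulus of continuity in time. -/

set_option autoImplicit false

open Set MeasureTheory Filter Topology Finset
open scoped RealInnerProductSpace ContDiff

namespace Pool.Agent.H280R3.D6

open Pool.Agent.H280R3.W

section

variable {φ ρ ψ : V → V} {x₁ : V} {ν T lam R c0 : ℝ} {vd : V → V} {ks Ns : ℕ}

theorem af_sq_le {M ε : ℕ → ℝ} (P : Prof φ ρ ψ x₁) (S : Scl M ε) {v : V → V}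
    (hv : InX (Fam φ ψ ρ M ε) v) (n : ℕ) :
    (M n ^ 2 * af φ M v n) ^ 2 * dir φ φ ≤ dir v v := by
  have hφ := φT P S n
  have hvT := hv.1
  set a := af φ M v n with ha
  have h1 := dir_eq P S hv n
  have h2 := sc_dir (S.M_pos n) P.φT.diff P.φT.diff
  have hw := hvT.add (hφ.smul (-a))
  have h0 := dir_self_nonneg (v + (-a) • sc (M n) φ)
  rw [dir_add_right hw.contd hvT (hφ.smul (-a)), dir_smul_right _ hφ, dir_comm (v + _) v,
    dir_comm (v + _) (sc (M n) φ), dir_add_right hvT.contd hvT (hφ.smul (-a)),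
    dir_add_right hφ.contd hvT (hφ.smul (-a)), dir_smul_right _ hφ, dir_smul_right _ hφ,
    dir_comm (sc (M n) φ) v, h1, h2] at h0
  have e : (M n ^ 2 * a) ^ 2 * dir φ φ = a ^ 2 * (M n ^ 4 * dir φ φ) := by ring
  rw [e]
  nlinarith

/-- the dissipation is continuous in time -/
theorem dir_cont (G : Good φ ρ ψ x₁ ν T lam R c0 vd ks Ns) {T' : ℝ} {u : ℝ → V → V} (h0 : 0 ≤ T')
    (hT' : T' ≤ T)
    (hu : GSol ν (Fam φ ψ ρ (MM lam) (EE lam)) vd T' u) :
    ContinuousOn (fun t => dir (u t) (u t)) (Icc 0 T') := by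
  obtain ⟨C, hC0, hC⟩ := G.grad_bdd h0 hT' hu
  have P := G.P
  have S := G.S
  have hν := G.ν_pos
  have hPT := PP_TF P S
  obtain ⟨B, hB0, hB⟩ := cs_bound hPT.contd (R := sr ψ)
    (fun x hx => fderiv_zero_of (PP_zero P S) x hx)
  set K := C + C * B + C * ‖HH‖ with hKdef
  have hK0 : 0 ≤ K := by positivity
  set U : ℕ → ℝ → V → V := fun n t => un φ ψ ρ (MM lam) (EE lam) (u t) n with hU
  have hUT : ∀ n t, TF (U n t) := fun n t => un_TF P S _ _
  have hDg : ∀ n, ∀ t ∈ Icc 0 T', ∀ x, ‖fderiv ℝ (u t - U n t) x‖ ≤ K := by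
    intro n t ht x
    refine (grad_diff P S (hu.mem t ht) (hC t ht).2.1 hB n x).trans ?_
    have := mul_le_mul_of_nonneg_right (hC t ht).2.2 hB0
    linarith
  have hDz : ∀ n, ∀ t ∈ Icc 0 T', ∀ x, rad (MM lam) n < ‖x‖ → fderiv ℝ (u t - U n t) x = 0 := by
    intro n t ht x hx
    exact fderiv_zero_of (diff_small P S (hu.mem t ht) n) x (by linarith [S.rad_pos n])
  -- comparison of the dissipation
  have hdir : ∀ n, ∀ t ∈ Icc 0 T', |dir (u t) (u t) - dir (u t) (U n t)|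
      ≤ 3 * (C * K) * vr (rad (MM lam) n) := by
    intro n t ht
    have hv := (hu.mem t ht).1
    have e1 : dir (u t) (u t) = dir (u t) (U n t) + dir (u t) (u t - U n t) := by
      rw [← dir_add_right hv.contd (hUT n t) (hv.sub (hUT n t))]
      congr 1; abel
    rw [e1, add_sub_cancel_left]
    exact dir_diff_le (hC t ht).2.1 (hDg n t ht) (hDz n t ht)
  -- continuity of the dissipation
  have hDn : ∀ n, ContinuousOn (fun t => dir (u t) (U n t)) (Icc 0 T') := by
    intro n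
    have e1 : EqOn (fun t => dir (u t) (U n t))
        (fun t => cf ψ ρ (MM lam) (EE lam) (u t) ^ 2
            * dir (PP ψ ρ (MM lam) (EE lam)) (PP ψ ρ (MM lam) (EE lam))
          + ∑ m ∈ range n, af φ (MM lam) (u t) m ^ 2 * (MM lam m ^ 4 * dir φ φ)) (Icc 0 T') := by
      intro t ht
      simp only [hU]
      rw [← dir_un P S (hu.mem t ht).1 n, dir_pump P S (hu.mem t ht) (hC t ht).2.1 hB]
      congr 1
      · ring
      · refine sum_congr rfl fun m _ => ?_
        rw [dir_eq P S (hu.mem t ht)]; ring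
    refine ContinuousOn.congr ?_ e1
    have hc : ContinuousOn (fun t => cf ψ ρ (MM lam) (EE lam) (u t)) (Icc 0 T') :=
      fun t ht => (c_deriv hu ht).continuousWithinAt
    have ha : ∀ m, ContinuousOn (fun t => af φ (MM lam) (u t) m) (Icc 0 T') :=
      fun m t ht => (a_deriv hu m ht).continuousWithinAt
    refine ((hc.pow 2).mul_const _).add ?_
    exact continuousOn_finsetSum _ fun m _ => ((ha m).pow 2).mul_const _
  have hvr := vr_rad_tendsto S
  have hlim : TendstoUniformlyOn (fun n t => dir (u t) (U n t)) (fun t => dir (u t) (u t))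
      atTop (Icc 0 T') := by
    rw [Metric.tendstoUniformlyOn_iff]
    intro η hη
    have h1 : Tendsto (fun n => 3 * (C * K) * vr (rad (MM lam) n)) atTop (𝓝 0) := by
      simpa using hvr.const_mul (3 * (C * K))
    filter_upwards [h1.eventually (gt_mem_nhds hη)] with n hn t ht
    rw [Real.dist_eq]
    exact (hdir n t ht).trans_lt hn
  exact hlim.continuousOn (Frequently.of_forall hDn)

/-- if the solution is Lipschitz in time with values in `L²` then the enstrophy is bounded -/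
theorem ens_of_lip (G : Good φ ρ ψ x₁ ν T lam R c0 vd ks Ns) {T' : ℝ} {u : ℝ → V → V} (h0 : 0 < T')
    (hT' : T' ≤ T)
    (hu : GSol ν (Fam φ ψ ρ (MM lam) (EE lam)) vd T' u) {L : ℝ}
    (hL0 : 0 ≤ L) (hL : ∀ s ∈ Icc 0 T', ∀ t ∈ Icc 0 T', ip (u t - u s) (u t - u s) ≤ L ^ 2 * (t - s) ^ 2)
    {t : ℝ} (ht : t ∈ Icc 0 T') :
    ν * dir (u t) (u t)
      ≤ L * Real.sqrt (ip vd vd) := by
  set u₀ := vd with hu₀
  set N := Real.sqrt (ip u₀ u₀) with hN
  have hN0 : 0 ≤ N := Real.sqrt_nonneg _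
  have hν := G.ν_pos
  have hen : ∀ s ∈ Icc 0 T', ip (u s) (u s) + 2 * ν * ∫ r in (0)..s, dir (u r) (u r) = ip u₀ u₀ :=
    fun s hs => G.energy h0.le hT' hu hs
  have hI0 : ∀ s ∈ Icc 0 T', 0 ≤ ∫ r in (0)..s, dir (u r) (u r) := fun s hs =>
    intervalIntegral.integral_nonneg hs.1 fun r _ => dir_self_nonneg _
  have hle : ∀ s ∈ Icc 0 T', ip (u s) (u s) ≤ N ^ 2 := by
    intro s hs
    rw [hN, Real.sq_sqrt (ip_self_nonneg _)]
    have h1 := hen s hs
    have h2 := mul_nonneg (by positivity : 0 ≤ 2 * ν) (hI0 s hs)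
    linarith
  have hcont := dir_cont G h0.le hT' hu
  have hint : ∀ a ∈ Icc 0 T', ∀ b ∈ Icc 0 T',
      IntervalIntegrable (fun r => dir (u r) (u r)) volume a b := by
    intro a ha b hb
    refine ContinuousOn.intervalIntegrable (hcont.mono ?_)
    exact uIcc_subset_Icc ha hb
  have key : ∀ a ∈ Icc 0 T', ∀ b ∈ Icc 0 T', a ≤ b →
      ν * ∫ r in a..b, dir (u r) (u r) ≤ L * N * (b - a) := by
    intro a ha b hb hab
    have h00 : (0 : ℝ) ∈ Icc 0 T' := ⟨le_rfl, h0.le⟩
    have e1 : ∫ r in a..b, dir (u r) (u r)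
        = (∫ r in (0)..b, dir (u r) (u r)) - ∫ r in (0)..a, dir (u r) (u r) :=
      (intervalIntegral.integral_interval_sub_left (hint 0 h00 b hb) (hint 0 h00 a ha)).symm
    have ha' := (hu.mem a ha).1
    have hb' := (hu.mem b hb).1
    have hd := hb'.sub ha'
    have e2 : ip (u b) (u b) = ip (u a) (u a) + 2 * ip (u a) (u b - u a)
        + ip (u b - u a) (u b - u a) := by
      rw [cip_sub ha'.cont hb'.CC ha'.CC, cip_sub hd.cont hb'.CC ha'.CC, ip_comm (u b - u a) (u b),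
        ip_comm (u b - u a) (u a), cip_sub hb'.cont hb'.CC ha'.CC, cip_sub ha'.cont hb'.CC ha'.CC,
        ip_comm (u b) (u a)]
      ring
    have h1 := ip_cs ha'.CC hd.CC
    have h2 : ip (u a) (u b - u a) ^ 2 ≤ (N * (L * (b - a))) ^ 2 := by
      refine h1.trans ?_
      have := mul_le_mul (hle a ha) (hL a ha b hb) (ip_self_nonneg _) (sq_nonneg N)
      calc _ ≤ _ := this
        _ = _ := by ring
    have h3 : 0 ≤ b - a := by linarith
    have h4 := (abs_le_of_sq_le_sq' h2 (by positivity)).1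
    have h5 := ip_self_nonneg (u b - u a)
    have h6 := hen a ha
    have h7 := hen b hb
    rw [e1]
    nlinarith
  by_contra hcon
  push Not at hcon
  have hc := hcont t ht
  have hB : L * N / ν < dir (u t) (u t) := by
    rw [div_lt_iff₀ hν]; linarith
  obtain ⟨B', hB1, hB2⟩ := exists_between hB
  have hev : ∀ᶠ s in 𝓝[Icc 0 T'] t, B' < dir (u s) (u s) := hc.eventually (lt_mem_nhds hB2)
  obtain ⟨r, hr, hball⟩ := Metric.mem_nhdsWithin_iff.mp hev
  obtain ⟨a, b, ha, hb, hab, hsub⟩ : ∃ a b, a ∈ Icc 0 T' ∧ b ∈ Icc 0 T' ∧ a < b ∧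
      ∀ s ∈ Icc a b, B' < dir (u s) (u s) := by
    rcases lt_or_ge t T' with h | h
    · refine ⟨t, min T' (t + r / 2), ht, ⟨le_min h0.le (by linarith [ht.1]), min_le_left _ _⟩,
        lt_min h (by linarith), fun s hs => hball ⟨?_, ?_⟩⟩
      · rw [Metric.mem_ball, Real.dist_eq, abs_lt]
        have := hs.2.trans (min_le_right _ _)
        constructor <;> linarith [hs.1]
      · exact ⟨ht.1.trans hs.1, hs.2.trans (min_le_left _ _)⟩
    · have htT : t = T' := le_antisymm ht.2 h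
      refine ⟨max 0 (T' - r / 2), T', ⟨le_max_left _ _, max_le h0.le (by linarith)⟩,
        ⟨h0.le, le_rfl⟩, max_lt h0 (by linarith), fun s hs => hball ⟨?_, ?_⟩⟩
      · rw [Metric.mem_ball, Real.dist_eq, abs_lt]
        have := (le_max_right _ _).trans hs.1
        constructor <;> linarith [hs.2]
      · exact ⟨(le_max_left _ _).trans hs.1, hs.2⟩
  have h1 := key a ha b hb hab.le
  have h2 : ∫ _ in a..b, B' ≤ ∫ s in a..b, dir (u s) (u s) :=
    intervalIntegral.integral_mono_on hab.le (by simp) (hint a ha b hb) fun s hs => (hsub s hs).le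
  rw [intervalIntegral.integral_const, smul_eq_mul] at h2
  have h3 : L * N < ν * B' := by
    rw [div_lt_iff₀ hν] at hB1; linarith
  have h4 : 0 < b - a := by linarith
  nlinarith [mul_le_mul_of_nonneg_left h2 hν.le, mul_lt_mul_of_pos_right h3 h4]


/-- the coefficients of a bounded field -/
theorem af_sup (P : Prof φ ρ ψ x₁) (lam : ℝ) :
    ∃ K, 0 ≤ K ∧ ∀ (v : V → V) (U : ℝ), Continuous v → (∀ x, ‖v x‖ ≤ U) → ∀ n,
      |af φ (MM lam) v n| ≤ K * U * Real.exp (-(3 / 2 * LL lam n)) := by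
  have hF := φ_pos P
  have hN0 : 0 ≤ ∫ x, ‖φ x‖ := integral_nonneg fun x => norm_nonneg _
  refine ⟨(∫ x, ‖φ x‖) / ip φ φ, by positivity, fun v U hv hU n => ?_⟩
  have hM := MM_pos lam n
  have hU0 : 0 ≤ U := (norm_nonneg _).trans (hU 0)
  have hscT : TF (sc (MM lam n) φ) := sc_TF hM P.φT
  have hi : Integrable fun x => ‖sc (MM lam n) φ x‖ := by
    obtain ⟨r, hr⟩ := hscT.out
    have := hscT.cont
    exact integrable_of_zero (by fun_prop) (R := r) fun x hx => by simp [(hr x hx).1]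
  have h1 : |ip v (sc (MM lam n) φ)| ≤ U * ∫ x, ‖sc (MM lam n) φ x‖ := by
    unfold ip
    rw [← Real.norm_eq_abs, ← integral_const_mul]
    refine (norm_integral_le_integral_norm _).trans ?_
    refine integral_mono (ip_int hv hscT).norm (hi.const_mul U) fun x => ?_
    beta_reduce
    rw [Real.norm_eq_abs]
    exact (abs_real_inner_le_norm _ _).trans (mul_le_mul_of_nonneg_right (hU x) (norm_nonneg _))
  have h2 : ∫ x, ‖sc (MM lam n) φ x‖ = Real.exp (-(3 / 2 * LL lam n)) * ∫ x, ‖φ x‖ := by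
    have e1 : ∫ x, MM lam n ^ 6 * ‖φ (MM lam n ^ 2 • x)‖ = ∫ x, ‖φ x‖ :=
      int_scale hM (fun x => ‖φ x‖)
    rw [← e1, ← integral_const_mul]
    congr 1
    funext x
    unfold sc
    rw [norm_smul, Real.norm_eq_abs, abs_of_pos (by positivity), ← mul_assoc]
    congr 1
    rw [MM_pow, MM_pow, ← Real.exp_add]
    congr 1; push_cast; ring
  unfold af
  rw [abs_div, abs_of_pos hF, div_le_iff₀ hF]
  rw [h2] at h1
  refine h1.trans (le_of_eq ?_)
  field_simp

section

variable {Ts : ℝ} {u : ℝ → V → V}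

/-- the square of the sup norm has no integrable majorant -/
theorem serrin_sup (G : Good φ ρ ψ x₁ ν T lam R c0 vd ks Ns) (hTsT : Ts ≤ T)
    (hsol : ∀ T', 0 ≤ T' → T' < Ts → GSol ν (Fam φ ψ ρ (MM lam) (EE lam)) vd T' u)
    (hbl : ∀ n₀, ∃ t, 0 ≤ t ∧ t < Ts ∧ ∃ n ≥ n₀, muu (ν * dir φ φ / ip φ φ) lam n <
        W (gg (-hf φ φ / ip φ φ) lam) (fun n t => af φ (MM lam) (u t) n) n t)
    {g : ℝ → ℝ} (hg : IntegrableOn g (Ioo 0 Ts)) :
    ∃ t, 0 ≤ t ∧ t < Ts ∧ ∃ x, g t < ‖u t x‖ ^ 2 := by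
  by_contra hcon
  push Not at hcon
  obtain ⟨K, hK0, hK⟩ := af_sup G.P lam
  have hg0 : ∀ t, 0 ≤ t → t < Ts → 0 ≤ g t := fun t h0 h1 => (sq_nonneg _).trans (hcon t h0 h1 0)
  obtain ⟨t, ht0, ht, hlt⟩ := serrin G hTsT hsol hbl (s := 3) (K := K) (by norm_num)
    (by norm_num) hK0 (U := fun t => Real.sqrt (g t)) (fun t _ => Real.sqrt_nonneg _)
    (fun t ht m => by
      have hT := ((hsol t ht.1 ht.2).mem t ⟨ht.1, le_rfl⟩).1
      exact hK (u t) (Real.sqrt (g t)) hT.cont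
        (fun x => Real.le_sqrt_of_sq_le (hcon t ht.1 ht.2 x)) m) hg
  beta_reduce at hlt
  have e : (4 : ℝ) / (3 - 1) = (2 : ℕ) := by norm_num
  rw [e, Real.rpow_natCast, Real.sq_sqrt (hg0 t ht0 ht)] at hlt
  exact lt_irrefl _ hlt

/-- the square of the enstrophy has no integrable majorant -/
theorem serrin_ens (G : Good φ ρ ψ x₁ ν T lam R c0 vd ks Ns) (hTsT : Ts ≤ T)
    (hsol : ∀ T', 0 ≤ T' → T' < Ts → GSol ν (Fam φ ψ ρ (MM lam) (EE lam)) vd T' u)
    (hbl : ∀ n₀, ∃ t, 0 ≤ t ∧ t < Ts ∧ ∃ n ≥ n₀, muu (ν * dir φ φ / ip φ φ) lam n <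
        W (gg (-hf φ φ / ip φ φ) lam) (fun n t => af φ (MM lam) (u t) n) n t)
    {g : ℝ → ℝ} (hg : IntegrableOn g (Ioo 0 Ts)) :
    ∃ t, 0 ≤ t ∧ t < Ts ∧ g t < dir (u t) (u t) ^ 2 := by
  have hA := dir_φ_pos G.P
  obtain ⟨t, ht0, ht, hlt⟩ := serrin G hTsT hsol hbl (s := 2) (K := (Real.sqrt (dir φ φ))⁻¹)
    (by norm_num) (by norm_num) (by positivity) (U := fun t => Real.sqrt (dir (u t) (u t)))
    (fun t _ => Real.sqrt_nonneg _)
    (fun t ht m => by
      have h1 := af_sq_le G.P G.S ((hsol t ht.1 ht.2).mem t ⟨ht.1, le_rfl⟩) m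
      have hM := MM_pos lam m
      have e1 : MM lam m ^ 2 = Real.exp (LL lam m) := by
        rw [MM_pow]; congr 1; push_cast; ring
      have h2 : |af φ (MM lam) (u t) m| * (Real.exp (LL lam m) * Real.sqrt (dir φ φ))
          ≤ Real.sqrt (dir (u t) (u t)) := by
        refine Real.le_sqrt_of_sq_le ?_
        rw [mul_pow, mul_pow, Real.sq_sqrt hA.le, sq_abs, ← e1]
        calc _ = (MM lam m ^ 2 * af φ (MM lam) (u t) m) ^ 2 * dir φ φ := by ring
          _ ≤ _ := h1
      have hs : 0 < Real.sqrt (dir φ φ) := Real.sqrt_pos.2 hA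
      have he := Real.exp_pos (LL lam m)
      have e2 : Real.exp (-(2 / 2 * LL lam m)) = (Real.exp (LL lam m))⁻¹ := by
        rw [← Real.exp_neg]; congr 1; ring
      rw [e2]
      rw [← le_div_iff₀ (by positivity)] at h2
      refine h2.trans (le_of_eq ?_)
      field_simp) hg
  refine ⟨t, ht0, ht, ?_⟩
  beta_reduce at hlt
  have e : (4 : ℝ) / (2 - 1) = (4 : ℕ) := by norm_num
  rw [e, Real.rpow_natCast] at hlt
  have e4 : Real.sqrt (dir (u t) (u t)) ^ 4 = dir (u t) (u t) ^ 2 := by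
    have h1 : Real.sqrt (dir (u t) (u t)) ^ 4 = (Real.sqrt (dir (u t) (u t)) ^ 2) ^ 2 := by ring
    rw [h1, Real.sq_sqrt (dir_self_nonneg _)]
  rwa [e4] at hlt

/-- the maximal solution is not Lipschitz in time with values in `L²` -/
theorem not_lip (G : Good φ ρ ψ x₁ ν T lam R c0 vd ks Ns) (hTs : Ts ≤ T)
    (hsol : ∀ T', 0 ≤ T' → T' < Ts →
        GSol ν (Fam φ ψ ρ (MM lam) (EE lam)) vd T' u)
    (hE : ∀ E, ∃ t, 0 ≤ t ∧ t < Ts ∧ E < dir (u t) (u t)) :
    (∀ L, ∃ s t, 0 ≤ s ∧ s < t ∧ t < Ts ∧ L * (t - s) < Real.sqrt (ip (u t - u s) (u t - u s))) := by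
  intro L
  by_contra hcon
  push Not at hcon
  set L' := max L 0 with hL'
  have hL0 : 0 ≤ L' := le_max_right _ _
  have hlip : ∀ s t, 0 ≤ s → s < Ts → 0 ≤ t → t < Ts →
      ip (u t - u s) (u t - u s) ≤ L' ^ 2 * (t - s) ^ 2 := by
    have h1 : ∀ s t, 0 ≤ s → s < t → t < Ts →
        ip (u t - u s) (u t - u s) ≤ L' ^ 2 * (t - s) ^ 2 := by
      intro s t hs hst ht
      have h2 := hcon s t hs hst ht
      have h3 : Real.sqrt (ip (u t - u s) (u t - u s)) ≤ L' * (t - s) :=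
        h2.trans (mul_le_mul_of_nonneg_right (le_max_left _ _) (by linarith))
      have h4 := pow_le_pow_left₀ (Real.sqrt_nonneg _) h3 2
      rw [Real.sq_sqrt (ip_self_nonneg _)] at h4
      calc _ ≤ _ := h4
        _ = _ := by ring
    intro s t hs hsT ht htT
    rcases lt_trichotomy s t with h | h | h
    · exact h1 s t hs h htT
    · subst h
      simp only [sub_self]
      unfold ip; simp
    · have h2 := h1 t s ht h hsT
      have e : ip (u t - u s) (u t - u s) = ip (u s - u t) (u s - u t) := by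
        have : u t - u s = (-1 : ℝ) • (u s - u t) := by
          rw [neg_one_smul]; abel
        rw [this, ip_smul_left, ip_smul_right]; ring
      rw [e]
      calc _ ≤ _ := h2
        _ = _ := by ring
  have hν := G.ν_pos
  obtain ⟨t, ht0, ht, hEt⟩ := hE (L' * Real.sqrt (ip vd
    vd) / ν)
  set T' := (t + Ts) / 2 with hT'
  have h1 : T' < Ts := by rw [hT']; linarith
  have h2 : t ≤ T' := by rw [hT']; linarith
  have h3 : 0 < T' := by rw [hT']; linarith
  have h4 := ens_of_lip G h3 (h1.le.trans hTs) (hsol T' h3.le h1) hL0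
    (fun s hs t ht => hlip s t hs.1 (lt_of_le_of_lt hs.2 h1) ht.1 (lt_of_le_of_lt ht.2 h1))
    ⟨ht0, h2⟩
  rw [div_lt_iff₀ hν] at hEt
  linarith

end

end

end Pool.Agent.H280R3.D6
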